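import Pool.Agent.H84.T4.N2
import Pool.Agent.H87.T4.N2B
import Pool.Agent.H48.T4.WS

/-!
Project TM4 (MP_b6022c_nt), row N2: (M0) and (G) imply (N2).
-/

set_option autoImplicit false

namespace Pool.Agent.H84.T4

open Pool.Agent.H9.TC Pool.Agent.H20.T4

theorem n2_full (h0 : M0Stmt) (hg : GStmt) : Pool.Agent.H20.T4.N2Stmt :=
  n2 h0 hg (n2a Pool.Agent.H48.T4.w3) (Pool.Agent.H87.T4.n2b Pool.Agent.H48.T4.w2)

end Pool.Agent.H84.T4
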