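import Pool.Agent.H84.T4.N2A

/-!
Project TM4 (MP_b6022c_nt), row N2: assembly.
-/

set_option autoImplicit false

namespace Pool.Agent.H84.T4

open Finset Pool.Agent.H9.TC Pool.Agent.H20.TM Pool.Agent.H20.T4

theorem ee_neg (x : ℝ) : ee (-x) = (starRingEnd ℂ) (ee x) := by
  unfold ee
  rw [← Complex.exp_conj, map_mul, Complex.conj_I, Complex.conj_ofReal]
  congr 1
  push_cast
  ring

theorem norm_sum_neg (B : ℕ) (g : ℕ → ℝ) :
    ‖∑ b ∈ range B, ee (-g b)‖ = ‖∑ b ∈ range B, ee (g b)‖ := by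
  have h1 : ∑ b ∈ range B, ee (-g b) = (starRingEnd ℂ) (∑ b ∈ range B, ee (g b)) := by
    rw [map_sum]
    exact Finset.sum_congr rfl (fun b _ => ee_neg (g b))
  rw [h1, RCLike.norm_conj]

theorem n2 (h0 : M0Stmt) (hg : GStmt) (ha : N2AStmt) (hb : N2BStmt) : Pool.Agent.H20.T4.N2Stmt := by
  intro q c L g9 Cf hq1 hc1 hL
  obtain ⟨CA, hCA, pA, hA⟩ := ha q c L g9 Cf hq1 hc1 hL
  obtain ⟨CB, hCB, pB, hB⟩ := hb q c L g9 Cf hq1 hc1 hL
  refine ⟨(4 * 4 ^ (L + g9) + 1) * (4 * 2 ^ (L + g9)) * (1 + (CA + CB) + q),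
    pA + pB + g9 + L + 2, ?_⟩
  intro p hp v uf σ κh κt ED D hv hvuf hσ hσu hκ hD n hn d e f h t r hd hh ht hr is
  have e1 : (20 * q + 16) * p = 20 * (q * p) + 16 * p := by ring
  have e2 : (60 * q + 60) * p = 60 * (q * p) + 60 * p := by ring
  have hvp : 2 * p ≤ v := by omega
  have hcard : (univ : Finset (Fin q)).card = q := by
    rw [Finset.card_univ, Fintype.card_fin]
  apply ncom h0 hg q q le_rfl hq1 univ v (2 ^ (v - 2 * p)) L g9 (CA + CB) (by positivity) p uf σ
    (by omega) Nat.one_le_two_pow (nWv v p (by omega)) (by omega) hL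
  · rw [hcard, nW v p hvp, ← pow_mul]
    apply le_of_eq
    congr 1
    ring
  · rw [hcard]
    exact ntail q v p hvp q (Nat.cast_nonneg q)
  · intro K hK hKL tt htt httT a haa
    have haa' : ∀ i, |a i| ≤ 2 ^ ((2 * q + 3) * p) := fun i => haa i (mem_univ i)
    have hx : (0 : ℝ) < (1 / 2) ^ ((2 * q + 1) * p) * 2 ^ σ := by positivity
    -- natural `τ`
    have key : ∀ τ : ℕ, 1 ≤ τ → τ < 2 ^ ((2 * q + 2) * p) →
        ‖∑ b ∈ range (2 ^ σ), ee ((τ : ℝ) * ((∑ i, (a i : ℝ) * (slo c d e f r n b i : ℝ)) / 2 ^ v +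
          (K : ℝ) * (slo c d e f r n b is : ℝ) / 2 ^ (uf + L)))‖ ≤
        (CA + CB) * (1 / 2) ^ ((2 * q + 1) * p) * 2 ^ σ := by
      intro τ h1 h2
      by_cases hc : (∑ i, a i) ≠ 0 ∧ v + (40 * q + 26) * p ≤ 3 * σ
      · refine (hA p (by omega) v uf σ κh κt ED D hv hvuf hσ hσu hκ hD n hn d e f h t r hd hh ht hr
          is K hK hKL τ h1 h2 a haa' hc).trans ?_
        nlinarith
      · have hc' : (∑ i, a i) = 0 ∨ 3 * σ < v + (40 * q + 26) * p := by
          by_cases h3 : (∑ i, a i) = 0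
          · exact Or.inl h3
          · exact Or.inr (by
              by_contra h4
              exact hc ⟨h3, by omega⟩)
        refine (hB p (by omega) v uf σ κh κt ED D hv hvuf hσ hσu hκ hD n hn d e f h t r hd hh ht hr
          is K hK hKL τ h1 h2 a haa' hc').trans ?_
        nlinarith
    rcases lt_or_gt_of_ne htt with hneg | hpos
    · obtain ⟨τ, hτ⟩ := Int.eq_ofNat_of_zero_le (show 0 ≤ -tt by omega)
      have h1 : tt = -(τ : ℤ) := by omega
      have h2 := key τ (by omega) (by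
        rw [h1, abs_neg, Nat.abs_cast] at httT
        exact_mod_cast httT)
      rw [← norm_sum_neg] at h2
      refine le_trans (le_of_eq ?_) h2
      congr 1
      apply Finset.sum_congr rfl
      intro b _
      congr 1
      rw [h1]
      push_cast
      ring
    · obtain ⟨τ, hτ⟩ := Int.eq_ofNat_of_zero_le hpos.le
      have h2 := key τ (by omega) (by
        rw [hτ, Nat.abs_cast] at httT
        exact_mod_cast httT)
      refine le_trans (le_of_eq ?_) h2
      rw [hτ]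
      norm_cast

end Pool.Agent.H84.T4
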