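import Pool.Agent.H84.T4.N2Def
import Pool.Agent.H9.TC.NCom
import Pool.Agent.H54.T4.G1

/-!
Project TM4 (MP_b6022c_nt), row N2, case A.
-/

set_option autoImplicit false

namespace Pool.Agent.H84.T4

open Finset Pool.Agent.H9.TC Pool.Agent.H20.TM Pool.Agent.H20.T4

/-- the coefficients of the slope as a polynomial in `b` -/
theorem slo_eq {q : ℕ} (c : ℕ) (d e f r : Fin q → ℤ) (n : ℤ) (b : ℕ) (i : Fin q) :
    (slo c d e f r n b i : ℝ) = 4 * c * (b : ℝ) ^ 3 +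
      (12 * c * ((n : ℝ) + r i) + 3 * d i) * (b : ℝ) ^ 2 +
      (12 * c * ((n : ℝ) + r i) ^ 2 + 6 * d i * ((n : ℝ) + r i) + 2 * e i) * b +
      (4 * c * ((n : ℝ) + r i) ^ 3 + 3 * d i * ((n : ℝ) + r i) ^ 2 + 2 * e i * ((n : ℝ) + r i)
        + f i) := by
  unfold slo dqua
  push_cast
  ring

/-- the phase as a cubic polynomial in `b` -/
theorem phase_eq {q : ℕ} (c : ℕ) (d e f r : Fin q → ℤ) (n : ℤ) (a : Fin q → ℤ) (is : Fin q)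
    (τ u κ : ℝ) : ∃ t2 t1 t0 : ℝ, ∀ b : ℕ,
    τ * ((∑ i, (a i : ℝ) * (slo c d e f r n b i : ℝ)) * u + κ * (slo c d e f r n b is : ℝ)) =
      (τ * (4 * c) * (((∑ i, a i : ℤ) : ℝ) * u + κ)) * (b : ℝ) ^ 3 + t2 * (b : ℝ) ^ 2 +
        t1 * b + t0 := by
  refine ⟨τ * ((∑ i, (a i : ℝ) * (12 * c * ((n : ℝ) + r i) + 3 * d i)) * u +
      κ * (12 * c * ((n : ℝ) + r is) + 3 * d is)),
    τ * ((∑ i, (a i : ℝ) * (12 * c * ((n : ℝ) + r i) ^ 2 + 6 * d i * ((n : ℝ) + r i) + 2 * e i)) * u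
      + κ * (12 * c * ((n : ℝ) + r is) ^ 2 + 6 * d is * ((n : ℝ) + r is) + 2 * e is)),
    τ * ((∑ i, (a i : ℝ) * (4 * c * ((n : ℝ) + r i) ^ 3 + 3 * d i * ((n : ℝ) + r i) ^ 2
      + 2 * e i * ((n : ℝ) + r i) + f i)) * u
      + κ * (4 * c * ((n : ℝ) + r is) ^ 3 + 3 * d is * ((n : ℝ) + r is) ^ 2
        + 2 * e is * ((n : ℝ) + r is) + f is)), ?_⟩
  intro b
  have h1 : ∑ i, (a i : ℝ) * (slo c d e f r n b i : ℝ) =
      (4 * c) * ((∑ i, a i : ℤ) : ℝ) * (b : ℝ) ^ 3 +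
      (∑ i, (a i : ℝ) * (12 * c * ((n : ℝ) + r i) + 3 * d i)) * (b : ℝ) ^ 2 +
      (∑ i, (a i : ℝ) * (12 * c * ((n : ℝ) + r i) ^ 2 + 6 * d i * ((n : ℝ) + r i) + 2 * e i)) * b +
      (∑ i, (a i : ℝ) * (4 * c * ((n : ℝ) + r i) ^ 3 + 3 * d i * ((n : ℝ) + r i) ^ 2
        + 2 * e i * ((n : ℝ) + r i) + f i)) := by
    push_cast
    rw [Finset.mul_sum, Finset.sum_mul, Finset.sum_mul, Finset.sum_mul, ← Finset.sum_add_distrib,
      ← Finset.sum_add_distrib, ← Finset.sum_add_distrib]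
    apply Finset.sum_congr rfl
    intro i _
    rw [slo_eq]
    ring
  rw [h1, slo_eq]
  ring

theorem n2a (hw : W3Stmt) : N2AStmt := by
  intro q c L g9 Cf hq1 hc1 hL
  refine ⟨3, by norm_num, 2 * (L + g9) + 20 + c + q, ?_⟩
  intro p hp v uf σ κh κt ED D hv hvuf hσ hσu hκ hD n _ d e f h t r _ _ _ _ is K hK _ τ hτ hτT a ha
    hCs
  obtain ⟨hA0, hvσ⟩ := hCs
  have e1 : (20 * q + 16) * p = 20 * (q * p) + 16 * p := by ring
  have e2 : (60 * q + 60) * p = 60 * (q * p) + 60 * p := by ring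
  have e3 : (40 * q + 26) * p = 40 * (q * p) + 26 * p := by ring
  have e4 : (8 * q + 4) * p = 8 * (q * p) + 4 * p := by ring
  have e5 : (4 * q + 5) * p = 4 * (q * p) + 5 * p := by ring
  have e6 : (2 * q + 2) * p = 2 * (q * p) + 2 * p := by ring
  have e7 : (2 * q + 3) * p = 2 * (q * p) + 3 * p := by ring
  -- the parameters
  set hh : ℕ := min ((v - (4 * q + 5) * p - (7 + c + q)) / 2) (σ - (8 * q + 4) * p) with hhdef
  have hi : 2 * hh + (4 * q + 5) * p + (7 + c + q) ≤ v := by omega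
  have hii : hh + (8 * q + 4) * p ≤ σ := by omega
  have hiii : (8 * q + 4) * p ≤ hh := by omega
  have hiv : v + 3 * ((8 * q + 4) * p) ≤ σ + 2 * hh := by omega
  set k0 : ℕ := hh - (8 * q + 4) * p with hk0
  have hk0h : hh = k0 + (8 * q + 4) * p := by omega
  -- the cubic coefficient
  set As : ℤ := ∑ i, a i with hAs
  have hAs1 : (1 : ℝ) ≤ |(As : ℝ)| := by
    have : (1 : ℤ) ≤ |As| := Int.one_le_abs hA0
    exact_mod_cast this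
  have hAs2 : |(As : ℝ)| ≤ 2 ^ (q + (2 * q + 3) * p) := by
    have h1 := nsum (univ : Finset (Fin q)) a (2 ^ ((2 * q + 3) * p)) (by positivity)
      (fun i _ => ha i)
    have h2 : (q : ℤ) ≤ 2 ^ q := by exact_mod_cast (Nat.lt_two_pow_self).le
    have h3 : |As| ≤ 2 ^ q * 2 ^ ((2 * q + 3) * p) :=
      h1.trans (mul_le_mul_of_nonneg_right h2 (by positivity))
    rw [pow_add]
    exact_mod_cast h3
  set Q : ℝ := (As : ℝ) * (1 / 2 ^ v) + (K : ℝ) / 2 ^ (uf + L) with hQ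
  have hK2 : |(K : ℝ) / 2 ^ (uf + L)| ≤ 1 / 2 * (1 / 2 ^ v) := by
    rw [abs_div, abs_of_pos (by positivity : (0 : ℝ) < 2 ^ (uf + L)), div_le_iff₀ (by positivity)]
    have h1 : |(K : ℝ)| ≤ 2 ^ (2 * (L + g9) + 1) := by
      have := nK L g9 K hK
      exact_mod_cast this
    have h2 : (2 : ℝ) ^ (2 * (L + g9) + 1) * 2 * 2 ^ v ≤ 2 ^ (uf + L) := by
      rw [← pow_succ, ← pow_add]
      exact pow_le_pow_right₀ (by norm_num) (by omega)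
    have h3 : (0 : ℝ) < 2 ^ v := by positivity
    have h4 : 1 / 2 * (1 / 2 ^ v) * (2 : ℝ) ^ (uf + L) = 2 ^ (uf + L) / (2 * 2 ^ v) := by
      field_simp
    rw [h4, le_div_iff₀ (by positivity)]
    calc |(K : ℝ)| * (2 * 2 ^ v) ≤ 2 ^ (2 * (L + g9) + 1) * (2 * 2 ^ v) := by gcongr
      _ = (2 : ℝ) ^ (2 * (L + g9) + 1) * 2 * 2 ^ v := by ring
      _ ≤ _ := h2
  have hAv : |(As : ℝ) * (1 / 2 ^ v)| = |(As : ℝ)| * (1 / 2 ^ v) := by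
    rw [abs_mul, abs_of_pos (by positivity : (0 : ℝ) < 1 / 2 ^ v)]
  have hv0 : (0 : ℝ) < 1 / 2 ^ v := by positivity
  have hQ1 : 1 / 2 * (1 / 2 ^ v) ≤ |Q| := by
    have h1 : |(As : ℝ) * (1 / 2 ^ v)| - |(K : ℝ) / 2 ^ (uf + L)| ≤ |Q| := by
      have h2 : |(As : ℝ) * (1 / 2 ^ v)| ≤ |Q| + |(K : ℝ) / 2 ^ (uf + L)| := by
        have h3 : (As : ℝ) * (1 / 2 ^ v) = Q + -((K : ℝ) / 2 ^ (uf + L)) := by rw [hQ]; ring
        calc |(As : ℝ) * (1 / 2 ^ v)| = |Q + -((K : ℝ) / 2 ^ (uf + L))| := by rw [← h3]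
          _ ≤ |Q| + |-((K : ℝ) / 2 ^ (uf + L))| := abs_add_le _ _
          _ = _ := by rw [abs_neg]
      linarith
    rw [hAv] at h1
    have h4 : 1 * (1 / 2 ^ v) ≤ |(As : ℝ)| * (1 / 2 ^ v) :=
      mul_le_mul_of_nonneg_right hAs1 hv0.le
    linarith
  have hQ2 : |Q| ≤ 2 * 2 ^ (q + (2 * q + 3) * p) * (1 / 2 ^ v) := by
    have h1 : |Q| ≤ |(As : ℝ) * (1 / 2 ^ v)| + |(K : ℝ) / 2 ^ (uf + L)| := abs_add_le _ _
    rw [hAv] at h1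
    have h2 : |(As : ℝ)| * (1 / 2 ^ v) ≤ 2 ^ (q + (2 * q + 3) * p) * (1 / 2 ^ v) :=
      mul_le_mul_of_nonneg_right hAs2 hv0.le
    have h3 : (1 : ℝ) ≤ 2 ^ (q + (2 * q + 3) * p) := one_le_pow₀ (by norm_num)
    have h4 : 1 * (1 / 2 ^ v) ≤ (2 : ℝ) ^ (q + (2 * q + 3) * p) * (1 / 2 ^ v) :=
      mul_le_mul_of_nonneg_right h3 hv0.le
    linarith
  obtain ⟨t2, t1, t0, hph⟩ := phase_eq c d e f r n a is (τ : ℝ) (1 / 2 ^ v)
    ((K : ℝ) / 2 ^ (uf + L))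
  have hsum : ∀ b : ℕ, (τ : ℝ) * ((∑ i, (a i : ℝ) * (slo c d e f r n b i : ℝ)) / 2 ^ v +
        (K : ℝ) * (slo c d e f r n b is : ℝ) / 2 ^ (uf + L)) =
      ((τ : ℝ) * (4 * c) * Q) * (b : ℝ) ^ 3 + t2 * (b : ℝ) ^ 2 + t1 * b + t0 := by
    intro b
    rw [hQ, ← hph b]
    ring
  simp only [hsum]
  have hτ1 : (1 : ℝ) ≤ τ := by exact_mod_cast hτ
  have hτ2 : (τ : ℝ) ≤ 2 ^ ((2 * q + 2) * p) := by exact_mod_cast hτT.le
  have hc2 : (1 : ℝ) ≤ c := by exact_mod_cast hc1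
  have hc3 : (c : ℝ) ≤ 2 ^ c := by exact_mod_cast (Nat.lt_two_pow_self).le
  have key := hw ((τ : ℝ) * (4 * c) * Q) t2 t1 t0 (2 ^ σ) (2 ^ hh) (2 ^ k0)
    ((2 : ℝ) ^ (2 * k0) / 2 ^ v) Nat.one_le_two_pow Nat.one_le_two_pow Nat.one_le_two_pow
    (by positivity) (by
      intro k1 k2 h1 h2 h3 h4
      have h1' : (2 : ℝ) ^ k0 ≤ k1 := by exact_mod_cast h1
      have h2' : (k1 : ℝ) ≤ 2 ^ hh := by exact_mod_cast h2.le
      have h3' : (2 : ℝ) ^ k0 ≤ k2 := by exact_mod_cast h3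
      have h4' : (k2 : ℝ) ≤ 2 ^ hh := by exact_mod_cast h4.le
      have hk1p : (0 : ℝ) ≤ k1 := Nat.cast_nonneg _
      have hk2p : (0 : ℝ) ≤ k2 := Nat.cast_nonneg _
      have hy : |6 * (k1 : ℝ) * k2 * ((τ : ℝ) * (4 * c) * Q)| = 24 * (c * τ) * (k1 * k2) * |Q| := by
        rw [show 6 * (k1 : ℝ) * k2 * ((τ : ℝ) * (4 * c) * Q) = (24 * (c * τ) * (k1 * k2)) * Q by
          ring, abs_mul, abs_of_nonneg (by positivity)]
      have hup : |6 * (k1 : ℝ) * k2 * ((τ : ℝ) * (4 * c) * Q)| ≤ 1 / 2 := by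
        rw [hy]
        calc 24 * ((c : ℝ) * τ) * (k1 * k2) * |Q|
            ≤ 32 * (2 ^ c * 2 ^ ((2 * q + 2) * p)) * (2 ^ hh * 2 ^ hh) *
              (2 * 2 ^ (q + (2 * q + 3) * p) * (1 / 2 ^ v)) := by gcongr; norm_num
          _ = 2 ^ (5 + c + (2 * q + 2) * p + hh + hh + 1 + (q + (2 * q + 3) * p)) / 2 ^ v := by
            rw [pow_add, pow_add, pow_add, pow_add, pow_add, pow_add]
            norm_num
            ring
          _ ≤ 1 / 2 := by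
            rw [div_le_iff₀ (by positivity)]
            have : (2 : ℝ) ^ (5 + c + (2 * q + 2) * p + hh + hh + 1 + (q + (2 * q + 3) * p)) * 2 ≤
                2 ^ v := by
              rw [← pow_succ]
              exact pow_le_pow_right₀ (by norm_num) (by omega)
            linarith
      refine le_trans ?_ (g1q_nn_le hup)
      rw [hy]
      calc (2 : ℝ) ^ (2 * k0) / 2 ^ v = 2 * (1 * 1) * (2 ^ k0 * 2 ^ k0) * (1 / 2 * (1 / 2 ^ v)) := by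
            rw [two_mul, pow_add]
            ring
        _ ≤ 24 * ((c : ℝ) * τ) * (k1 * k2) * |Q| := by gcongr; norm_num) (2 ^ σ) le_rfl
  have hN : ((2 ^ σ : ℕ) : ℝ) = 2 ^ σ := by push_cast; rfl
  have hy0 : (0 : ℝ) < (1 / 2) ^ ((8 * q + 4) * p) := by positivity
  have hb1 : 1 / ((2 : ℝ) ^ (2 * k0) / 2 ^ v * ((2 ^ σ : ℕ) : ℝ)) ≤ (1 / 2) ^ ((8 * q + 4) * p) := by
    rw [hN, one_div, inv_le_iff_one_le_mul₀ (by positivity), one_div, inv_pow]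
    rw [show ((2 : ℝ) ^ ((8 * q + 4) * p))⁻¹ * (2 ^ (2 * k0) / 2 ^ v * 2 ^ σ) =
      2 ^ (2 * k0 + σ) / (2 ^ (v + (8 * q + 4) * p)) by
        rw [pow_add, pow_add]; field_simp]
    rw [le_div_iff₀ (by positivity), one_mul]
    exact pow_le_pow_right₀ (by norm_num) (by omega)
  have hb2 : 6 * ((2 ^ k0 : ℕ) : ℝ) / ((2 ^ hh : ℕ) : ℝ) = 6 * (1 / 2) ^ ((8 * q + 4) * p) := by
    rw [hk0h]
    push_cast
    rw [pow_add, one_div, inv_pow]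
    field_simp
  have hb3 : ((2 ^ hh : ℕ) : ℝ) / ((2 ^ σ : ℕ) : ℝ) ≤ (1 / 2) ^ ((8 * q + 4) * p) := by
    push_cast
    rw [div_le_iff₀ (by positivity), one_div, inv_pow, inv_mul_eq_div, le_div_iff₀ (by positivity),
      ← pow_add]
    exact pow_le_pow_right₀ (by norm_num) (by omega)
  have hfin : ‖∑ b ∈ range (2 ^ σ), ee (((τ : ℝ) * (4 * c) * Q) * (b : ℝ) ^ 3 + t2 * (b : ℝ) ^ 2 +
      t1 * b + t0)‖ ^ 4 ≤ (3 * (1 / 2) ^ ((2 * q + 1) * p) * 2 ^ σ) ^ 4 := by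
    refine key.trans ?_
    rw [hb2]
    have h5 : (1 / 2 : ℝ) ^ ((8 * q + 4) * p) = ((1 / 2) ^ ((2 * q + 1) * p)) ^ 4 := by
      rw [← pow_mul]
      congr 1
      ring
    have h6 : 10 * (1 / ((2 : ℝ) ^ (2 * k0) / 2 ^ v * ((2 ^ σ : ℕ) : ℝ)) +
        6 * (1 / 2) ^ ((8 * q + 4) * p) + ((2 ^ hh : ℕ) : ℝ) / ((2 ^ σ : ℕ) : ℝ)) ≤
        81 * (1 / 2) ^ ((8 * q + 4) * p) := by linarith
    calc ((2 ^ σ : ℕ) : ℝ) ^ 4 * (10 * (1 / ((2 : ℝ) ^ (2 * k0) / 2 ^ v * ((2 ^ σ : ℕ) : ℝ)) +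
        6 * (1 / 2) ^ ((8 * q + 4) * p) + ((2 ^ hh : ℕ) : ℝ) / ((2 ^ σ : ℕ) : ℝ)))
        ≤ ((2 ^ σ : ℕ) : ℝ) ^ 4 * (81 * (1 / 2) ^ ((8 * q + 4) * p)) := by gcongr
      _ = _ := by rw [hN, h5]; ring
  exact (pow_le_pow_iff_left₀ (norm_nonneg _) (by positivity) (by norm_num)).1 hfin

end Pool.Agent.H84.T4
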