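import Pool.Agent.H20.T4.Stm

/-!
Project TM4 (MP_b6022c_nt), row N2: the two cases of the bound for the exponential sums.
-/

set_option autoImplicit false

namespace Pool.Agent.H84.T4

open Finset Pool.Agent.H9.TC Pool.Agent.H20.TM Pool.Agent.H20.T4

/-- The bound for the exponential sums of (N2) in the case `Cs q p v σ As`, `As = sum a_i`. -/
def N2Exp (Cs : ℕ → ℕ → ℕ → ℕ → ℤ → Prop) : Prop :=
  ∀ (q c L g9 Cf : ℕ), 1 ≤ q → 1 ≤ c → 1 ≤ L → ∃ C : ℝ, 0 ≤ C ∧ ∃ p0 : ℕ, ∀ p ≥ p0,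
    ∀ v uf σ κh κt ED D : ℕ, (20 * q + 16) * p ≤ v → v ≤ uf → (60 * q + 60) * p ≤ σ →
    3 * σ + (60 * q + 60) * p ≤ uf → κh + κt + ED + σ + (20 * q + 20) * p ≤ uf → D ≤ 2 ^ ED →
    ∀ n : ℤ,
      cnt (2 ^ ((16 * q + 12) * p)) (fun s1 => Bad2 q c L g9 p v uf (σ - (16 * q + 12) * p)
        κh κt D (n + s1 * 2 ^ (σ - (16 * q + 12) * p))) ≤ 2 ^ ((14 * q + 10) * p) →
    ∀ d e f h t r : Fin q → ℤ, (∀ i, |d i| ≤ Cf) → (∀ i, |h i| ≤ 2 ^ κh) → (∀ i, |t i| ≤ 2 ^ κt) →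
      (∀ i, r i = h i + D * t i) → ∀ is : Fin q,
    ∀ K : ℤ, |K| ≤ 2 * 4 ^ (L + g9) → ¬ (2 : ℤ) ^ L ∣ K →
    ∀ τ : ℕ, 1 ≤ τ → τ < 2 ^ ((2 * q + 2) * p) → ∀ a : Fin q → ℤ,
    (∀ i, |a i| ≤ 2 ^ ((2 * q + 3) * p)) → Cs q p v σ (∑ i, a i) →
    ‖∑ b ∈ range (2 ^ σ), ee ((τ : ℝ) * ((∑ i, (a i : ℝ) * (slo c d e f r n b i : ℝ)) / 2 ^ v +
        (K : ℝ) * (slo c d e f r n b is : ℝ) / 2 ^ (uf + L)))‖ ≤
      C * (1 / 2) ^ ((2 * q + 1) * p) * 2 ^ σ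

/-- Case A: Weyl (W3) on the whole interval. -/
def N2AStmt : Prop :=
  N2Exp (fun q p v σ A => A ≠ 0 ∧ v + (40 * q + 26) * p ≤ 3 * σ)

/-- Case B: Weyl (W2) on short blocks. -/
def N2BStmt : Prop :=
  N2Exp (fun q p v σ A => A = 0 ∨ 3 * σ < v + (40 * q + 26) * p)

end Pool.Agent.H84.T4
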